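import Mathlib
import Pool.Agent.H706Z.LsqB
import Pool.Agent.Helper639.ForceCH

set_option autoImplicit false

namespace Pool.Agent.Results.MP_ffd784_gt.ConsistentExample

open Pool.Agent.H706Z
open Pool.Agent.Helper639.ForceCH (OmegaOnePreserved CHHolds)

/-- Some forcing notion forces that `ω₁` is preserved and CH holds, and CH implies that there is a
Tychonoff L-space whose square is D-separable. -/
theorem result :
    (∃ (P : Type) (_ : Preorder P), Nonempty P ∧
      ∀ p : P, p ∈ OmegaOnePreserved P ∧ p ∈ CHHolds P) ∧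
    (Cardinal.aleph.{0} 1 = Cardinal.continuum →
      ∃ (X : Type) (_ : TopologicalSpace X), T35Space X ∧ HereditarilyLindelofSpace X ∧
        ¬ TopologicalSpace.SeparableSpace X ∧ BigDSeparable (X × X)) := by
  refine ⟨?_, Lsq.main⟩
  obtain ⟨P, i, hn, h⟩ := Pool.Agent.Helper639.ForceCH.exists_forcing
  exact ⟨P, i, hn, fun p => ⟨(h p).1, (h p).2.2⟩⟩

end Pool.Agent.Results.MP_ffd784_gt.ConsistentExample
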